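import Mathlib
import Pool.Agent.Helper15.AB.StBV

/-!
Project HL (MP_8be7de_nt), idea helper7: for `m ≥ C (log x)^2` all but `C x / m^2` of the `n ≤ x`
satisfy, for every prime `p > m`: `h(n) = p` if and only if `p` is the greatest prime with `p - 1 ∣ n`.
-/

set_option autoImplicit false

namespace Pool.Agent.Helper83.HL

open Classical

/-- the subgroup of `(ZMod q)ˣ` generated by the classes of `2, ..., m` -/
def Hs (q m : ℕ) : Subgroup (ZMod q)ˣ :=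
  Subgroup.closure {u | ∃ k : ℕ, 2 ≤ k ∧ k ≤ m ∧ (u : ZMod q) = (k : ZMod q)}

/-- its order -/
noncomputable def Dq (q m : ℕ) : ℕ := Nat.card (Hs q m)

/-- number of the `m`-smooth integers in `[1, N]` -/
noncomputable def Psi (N m : ℕ) : ℕ :=
  ((Finset.Icc 1 N).filter (fun n => ∀ p : ℕ, p.Prime → p ∣ n → p ≤ m)).card

/-- `q` is a prime `> m` for which `1, ..., m` do not generate all classes -/
def Bad (q m : ℕ) : Prop := q.Prime ∧ m < q ∧ Hs q m ≠ ⊤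

/-- the set of the admissible values for `h(n)` -/
def hS (n : ℕ) : Set ℕ := {m : ℕ | 2 < m ∧ (Finset.Icc 2 m).gcd (fun k => k ^ n - 1) = 1}

/-- the primes `q` with `q - 1 ∣ n` -/
def pS (n : ℕ) : Set ℕ := {q : ℕ | q.Prime ∧ q - 1 ∣ n}

/-- MODULE A. PROOF. If the gcd is not `1` it has a prime divisor `q` (it is not `0`: `2 ^ n - 1 ≥ 1`).
`q ∣ k ^ n - 1` for `2 ≤ k ≤ m`; `q ≤ m` is impossible (take `k = q ≥ 2`: `q ∣ q ^ n`, so `q ∣ 1`).
So `m < q`, the generators `u` of `Hs q m` (`u = k`) satisfy `u ^ n = 1`, hence all elements of `Hs q m` do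
(`(ZMod q)ˣ` is commutative; `Subgroup.closure_le` with the subgroup of the `u` with `u ^ n = 1`), and `Hs q m` is
cyclic (`(ZMod q)ˣ` is cyclic), so its order divides `n` (a generator has order `Nat.card`). Conversely let
`Dq q m ∣ n`, `m < q`. For `2 ≤ k ≤ m` the class of `k` is a unit `u ∈ Hs q m` (`k < q`), `u ^ Dq q m = 1`, so
`u ^ n = 1` and `q ∣ k ^ n - 1`; so `q` divides the gcd. -/
def StA : Prop := ∀ n m : ℕ, 1 ≤ n → 2 ≤ m →
  ((Finset.Icc 2 m).gcd (fun k => k ^ n - 1) ≠ 1 ↔ ∃ q : ℕ, q.Prime ∧ m < q ∧ Dq q m ∣ n)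

/-- MODULE B, from `StA`. PROOF. First: for `m' ≥ m`, gcd up to `m'` is not `1` iff some prime `q > m'` has
`q - 1 ∣ n`. If `q > m'` and `Dq q m' ∣ n` then `Dq q m ∣ Dq q m'` (`Hs q m ≤ Hs q m'`), so `Dq q m ∣ n`, so by
hypothesis `Hs q m = ⊤`, so `Hs q m' = ⊤` and `Dq q m' = q - 1` (`ZMod.card_units`). Conversely
`Dq q m' ∣ q - 1` always. Now let `p > m` be prime (`p - 1 ≥ m ≥ 3`). `IsLeast (hS n) p` iff the gcd up to `p` is
`1` and the gcd up to `p - 1` is not `1` (the gcd up to `m'` divides the gcd up to `m''` for `m'' ≤ m'`, so if the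
gcd up to `m'' < p` were `1`, so would be the one up to `p - 1`), iff no prime `q > p` has `q - 1 ∣ n` and some
prime `q > p - 1`, that is `q ≥ p`, has, iff `IsGreatest (pS n) p`. -/
def StB : Prop := ∀ n m : ℕ, 1 ≤ n → 3 ≤ m → (∀ q : ℕ, Bad q m → ¬ Dq q m ∣ n) →
  ∀ p : ℕ, p.Prime → m < p → (IsLeast (hS n) p ↔ IsGreatest (pS n) p)

/-- MODULE C. PROOF. Let `a ≥ 1` be the least positive integer, `a < q`, whose class is not in `Hs q m` (there is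
one, because all units are classes of `1, ..., q - 1`). `a ≥ m + 1` and `a ≥ 2`. Write `q = a (b - 1) + s` with
`0 < s < a` (`a` does not divide the prime `q`, as `2 ≤ a < q`), so `a b = q + r` with `r = a - s`, `0 < r < a`; the
class of `a b` is the class of `r`, which is in `Hs q m` by minimality. `b ≤ q - 1` (`a ≥ 2`), `b ≥ 1`. If the class of `b` were
in `Hs q m` so would be that of `a`. So `b ≥ a`, and `q > a (b - 1) ≥ a (a - 1) ≥ (m + 1) m`. -/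
def StC : Prop := ∀ q m : ℕ, Bad q m → m * (m + 1) < q

/-- MODULE D. PROOF. The classes of the `m`-smooth integers `n` in `[1, q - 1]` are in `Hs q m` (induction on `n`,
`Nat.recOnMul` or strong induction with a prime factor; the class of a prime `p ≤ m < q` is a generator), and they
are pairwise distinct units. -/
def StD : Prop := ∀ q m : ℕ, q.Prime → m < q → Psi (q - 1) m ≤ Dq q m

/-- MODULE E, from the additive large sieve `Pool.Agent.Helper15.AB.StAL`. PROOF. Let `S` be the set of the `m`-smooth `n ∈ [1, N]`,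
`Z = Psi N m = |S| ≥ 1`, `a n = 1` for `n ∈ S`, `0` otherwise. For bad `q ∈ (Q, 2 Q]`, `D = Dq q m`, let `Z_h` be the number of the `n ∈ S`
with `n = h` mod `q`. The classes of the `n ∈ S` prime to `q` are in `Hs q m`; and no `n ∈ S` is divisible by `q > m`. So
`Z_h ≠ 0` for at most `D` classes, `Z^2 ≤ D ∑_h Z_h^2` (Cauchy-Schwarz), and `∑_{b < q} |∑_n a_n e(n b / q)|^2 = q ∑_h Z_h^2`. So
`∑_{0 < b < q} |..|^2 ≥ (q / D - 1) Z^2 ≥ (q / (2 D)) Z^2` (`Hs` is a proper subgroup: `2 D ≤ q - 1`). Sum over the bad `q` (the `b`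
coprime to `q` are `1, ..., q - 1`), `StAL` with `2 Q`, `M = 0`: `∑_q (q / (2 D)) Z^2 ≤ C (N + 4 Q^2) Z`, and `q > Q`. -/
def StE : Prop := ∃ C : ℝ, 0 < C ∧ ∀ Q N m : ℕ, 1 ≤ Q → 1 ≤ N → 1 ≤ m →
  ∑ q ∈ (Finset.Ioc Q (2 * Q)).filter (fun q => Bad q m), 1 / (Dq q m : ℝ) ≤
    C * (N + (Q : ℝ) ^ 2) / (Q * Psi N m)

/-- MODULE F1. PROOF (Mertens / Chebyshev). For large `m`, `∑_{m < p^A, p ≤ m} 1/p ≥ 1`, where `A` is an absolute constant. For instance from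
Mertens' first theorem: `∑_{p ≤ y} (log p) / p = log y + O(1)` (upper bound: `Pool.Agent.Helper28.PC.mertens_upper`; lower bound: from
`log n! = ∑ ..` or from Chebyshev's lower bound), or directly from Chebyshev: for `c y / log y ≤ π(y) ≤ C y / log y` there is a constant `B` with
at least `c' y / log y` primes in `(y, B y]`, so `∑_{y < p ≤ B y} 1/p ≥ c'' / log y`; sum over `y = m^(1/A) B^i` up to `m / B`: at least
`c'' ∑ 1 / log y ≥ c''' log A - O(1)`, which is `≥ 1` for a large constant `A`. -/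
def StF1 : Prop := ∃ A m₀ : ℕ, 1 ≤ A ∧ ∀ m : ℕ, m₀ ≤ m →
  1 ≤ ∑ p ∈ (Finset.Icc 1 m).filter (fun p => p.Prime ∧ m < p ^ A), (1 : ℝ) / p

/-- MODULE F, from `StF1`. PROOF. Let `A, m₀` be from `StF1`. By induction on `j` we show: there is `c_j > 0` such that for `m ≥ m₀`, `N ≥ 1`,
`N ^ A ≤ m ^ (A + j)` (that is `N ≤ m^(1 + j/A)`): `c_j N ≤ Psi N m`. `j = 0`: `N ≤ m`, `Psi N m = N`. Step: if `N ≤ m` it is clear; let `m < N`,
`N ^ A ≤ m ^ (A + j + 1)`. For a prime `p ≤ m` with `m < p ^ A` let `M = N / p` (floor, `≥ 1`); `M ^ A ≤ N ^ A / p ^ A ≤ m ^ (A + j)`, so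
`Psi M m ≥ c_j M ≥ c_j N / (2 p)`. The pairs `(p, n')` with `n' ≤ N / p` smooth give the smooth numbers `p n' ≤ N`, and every smooth `n ≤ N` is
obtained at most as often as it has prime factors `p` with `m < p ^ A`: fewer than `A + j + 2` times (the product of `t` different such primes `p`
divides `n ≤ N`, so `m ^ t < N ^ A ≤ m ^ (A + j + 1)`). So `(A + j + 2) Psi N m ≥ ∑_p c_j N / (2 p) ≥ c_j N / 2`. Finally `N ≤ m ^ k` is the
case `j = A k`. -/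
def StF : Prop := ∀ k : ℕ, ∃ c : ℝ, 0 < c ∧ ∃ m₀ : ℕ, ∀ m : ℕ, m₀ ≤ m → ∀ N : ℕ, 1 ≤ N → N ≤ m ^ k →
  c * N ≤ Psi N m

/-- MODULE G. PROOF. The map from the functions `Fin k → {primes ≤ m}` to the products, which are `m`-smooth and
`≤ m ^ k ≤ N`; a product determines the multiset of its factors (unique factorization), so every value is taken at
most `k!` times: `π(m) ^ k ≤ k! Psi N m ≤ k ^ k Psi N m`. (Here `π(m)` is `Nat.primeCounting m`.) -/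
def StG : Prop := ∀ m k N : ℕ, 1 ≤ k → m ^ k ≤ N → ((Nat.primeCounting m : ℝ) / k) ^ k ≤ Psi N m

/-- MODULE H. PROOF. `Chebyshev.psi_ge` and `Chebyshev.psi_le_primeCounting_mul_log`:
`m log 2 - log (m + 1) ≤ ψ m ≤ π(m) log m`; and `log 2 > 0.69`, `log (m + 1) ≤ 0.19 m` for large `m`. -/
def StH : Prop := ∃ m₀ : ℕ, 2 ≤ m₀ ∧ ∀ m : ℕ, m₀ ≤ m → (m : ℝ) / (2 * Real.log m) ≤ Nat.primeCounting m

/-- MODULE I, from `StC`, `StD`, `StE`, `StF`, `StG`, `StH`. PROOF. Let `C₀` be from `StE`, `c` from `StF` with `k = 8`, `m` large, `C ≥ 4096`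
large. Let `q ∈ T`. (1) If `m > x`: `Dq q m ≥ Psi (q - 1) m ≥ m > x` (`q - 1 ≥ m`, all `n ≤ m` are smooth), so `T` is empty. Let `m ≤ x`.
(2) `q ≤ x ^ 3`: otherwise `q - 1 ≥ x ^ 3`, and with `k = Nat.log m (x ^ 3) ≥ 3`, `m ^ k ≤ x ^ 3 < m ^ (k + 1)`, `Dq q m ≥ Psi (x ^ 3) m ≥ (π(m) / k) ^ k
≥ (m / (2 k log m)) ^ k ≥ (√m) ^ k` because `2 k log m ≤ 6 log x ≤ 6 √(m / C) ≤ √m`; and `(√m) ^ (k+1) > x ^ (3/2)`, so
`(√m) ^ k > x ^ (3/2) / √m ≥ x`: contradiction to `Dq q m ≤ x`. (`Psi` is monotone in `N`.)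
(3) `q > m ^ 2` by `StC`. For `2 ^ j < q ≤ 2 ^ (j + 1)` (one `j` for each `q`) put `Q = 2 ^ j`, `m ^ 2 / 2 < Q < x ^ 3`, `N = 4 Q ^ 2`. `StE`:
`T_j := ∑_{q ∈ T, Q < q ≤ 2 Q} 1 / Dq q m ≤ 5 C₀ Q / Psi N m`. If `N ≤ m ^ 8`: `Psi N m ≥ 4 c Q ^ 2`, so `T_j ≤ 5 C₀ / (4 c 2 ^ j)`; the sum of these over
`2 ^ j > m ^ 2 / 2` is at most `5 C₀ / (c m ^ 2)`. If `N > m ^ 8`: `k = Nat.log m N ≥ 8`, `m ^ k ≤ N < m ^ (k + 1)`, `Psi N m ≥ (m / (2 k log m)) ^ k`, so with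
`r = 2 k log m / √m`: `T_j ≤ 5 C₀ (√N / 2) (2 k log m / m) ^ k ≤ (5 C₀ / 2) √m r ^ k` (`√N ≤ (√m) ^ (k + 1)`). Here `k log m ≤ log N ≤ log (4 x ^ 6) ≤ 8 log x ≤ 8 √(m / C)`,
so `r ≤ 16 / √C ≤ 1/4`, and `r ^ k ≤ (16 log m / √m) ^ 8`, because `r ^ (k - 8) ≤ 4 ^ (-(k - 8)) ≤ (8 / k) ^ 8` for `k ≥ 8` (induction:
`((k + 1) / k) ^ 8 ≤ (9/8) ^ 8 < 4`) and `r 8 / k = 16 log m / √m`. So `T_j ≤ (5 C₀ / 2) √m (16 log m) ^ 8 / m ^ 4`. There are at most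
`3 log x / log 2 + 1 ≤ 7 log x ≤ 7 √m` values of `j` (`2 ^ j < x ^ 3`, `x ≥ 2`): total at most `18 C₀ (16 log m) ^ 8 / m ^ 3 ≤ C / m ^ 2` for a large
constant `C` (`(log m) ^ 8 ≤ C' m`). -/
def StI : Prop := ∃ (C : ℝ) (m₀ : ℕ), 0 < C ∧ ∀ x m : ℕ, 2 ≤ x → m₀ ≤ m → C * Real.log x ^ 2 ≤ m →
  ∀ T : Finset ℕ, (∀ q ∈ T, Bad q m ∧ Dq q m ≤ x) → ∑ q ∈ T, 1 / (Dq q m : ℝ) ≤ C / (m : ℝ) ^ 2

/-- MODULE J, from `StB`, `StI`. PROOF. Let `C₁, m₀` be from `StI` and `C = max C₁ (max m₀ 3)^2 + C₁ + ..` (large). If `m < max m₀ 3` the number is at most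
`x ≤ C x / m ^ 2` (`m ≥ 1` because `C log(2)^2 > 0`; for `m ≥ 1`). Otherwise for every `n` in the set there is by `StB` a bad `q = q(n)` with
`Dq q m ∣ n`, so `1 ≤ Dq q m ≤ n ≤ x`. Let `T` be the set of these `q(n)` (`Finset.image`). The number of the `n ≤ x` divisible by `Dq q m` is at most `x / Dq q m`,
so the cardinality is at most `∑_{q ∈ T} x / Dq q m ≤ C₁ x / m ^ 2`. -/
def StJ : Prop := ∃ C : ℝ, 0 < C ∧ ∀ x m : ℕ, 2 ≤ x → C * Real.log x ^ 2 ≤ m →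
  (((Finset.Icc 1 x).filter (fun n => ¬ ∀ p : ℕ, p.Prime → m < p →
    (IsLeast (hS n) p ↔ IsGreatest (pS n) p))).card : ℝ) ≤ C * x / (m : ℝ) ^ 2

end Pool.Agent.Helper83.HL
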