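import Pool.Agent.Helper83.HL.St
import Pool.Agent.Helper15.AB.All
import Pool.Agent.Helper81.HL.M_A
import Pool.Agent.Helper85.HL.M_B
import Pool.Agent.Helper72.HL.M_C
import Pool.Agent.Helper9.HL.M_D
import Pool.Agent.Helper41.HL.M_E
import Pool.Agent.Helper51.HL.M_F1
import Pool.Agent.Helper40.HL.M_F
import Pool.Agent.Helper60.HL.M_G
import Pool.Agent.Helper80.HL.M_H
import Pool.Agent.Helper84.HL.M_I
import Pool.Agent.Helper69.HL.M_J

/-! Assembly of project HL (MP_8be7de_nt). -/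

set_option autoImplicit false

namespace Pool.Agent.Helper83.HL

theorem tE : StE := Pool.Agent.Helper41.HL.mE Pool.Agent.Helper15.AB.aAL
theorem tF : StF := Pool.Agent.Helper40.HL.mF Pool.Agent.Helper51.HL.mF1
theorem tI : StI :=
  Pool.Agent.Helper84.HL.mI Pool.Agent.Helper72.HL.mC Pool.Agent.Helper9.HL.mD tE tF
    Pool.Agent.Helper60.HL.mG Pool.Agent.Helper80.HL.mH
theorem tJ : StJ :=
  Pool.Agent.Helper69.HL.mJ (Pool.Agent.Helper85.HL.mB Pool.Agent.Helper81.HL.mA) tI

end Pool.Agent.Helper83.HL
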